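import Pool.Agent.V11193.HW.Sharp

/-!
# The best constant in the Hardy inequality with weight `(1+|x|²)^α`, without constraint

MP_5b99fd_an, Q1, for every `α > -(n-2)/2` (in particular every `α > 1`).

Completing the square with the radial function `(1+|x|²)^(-s)`, `s = α - 1` for `α ≥ 1 + n/2` and
`s = (n+2α-2)/4` for `α ≤ 1 + n/2`, gives the lower bound; truncations of `(1+|x|²)^(-s)` show that it
is sharp.
-/

set_option autoImplicit false

open MeasureTheory Set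
open scoped ContDiff

namespace Pool.Agent.Results.MP_5b99fd_an.BestConstant

open Pool.Agent.V11193.HW in
/-- For `n ≥ 3` and `α > -(n-2)/2` the infimum of
`∫ (1+|x|²)^α |∇u|² / ∫ (1+|x|²)^(α-1) u²` over all nonzero real `u ∈ C_c^∞(ℝⁿ)` is
`(n+2α-2)²/4` if `α ≤ 1 + n/2` and `2n(α-1)` if `α ≥ 1 + n/2`. (The denominator is positive.) -/
theorem result (n : ℕ) (hn : 3 ≤ n) (α : ℝ) (hα : -((n : ℝ) - 2) / 2 < α) :
    (∀ u : EuclideanSpace ℝ (Fin n) → ℝ, ContDiff ℝ ∞ u → HasCompactSupport u → u ≠ 0 →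
      0 < ∫ x, (1 + ‖x‖ ^ 2) ^ (α - 1) * u x ^ 2) ∧
    IsGLB {q : ℝ | ∃ u : EuclideanSpace ℝ (Fin n) → ℝ,
        ContDiff ℝ ∞ u ∧ HasCompactSupport u ∧ u ≠ 0 ∧
        q = (∫ x, (1 + ‖x‖ ^ 2) ^ α * ‖fderiv ℝ u x‖ ^ 2)
          / ∫ x, (1 + ‖x‖ ^ 2) ^ (α - 1) * u x ^ 2}
      (if α ≤ 1 + n / 2 then ((n : ℝ) + 2 * α - 2) ^ 2 / 4 else 2 * n * (α - 1)) := by
  have hpos : ∀ u : EuclideanSpace ℝ (Fin n) → ℝ, ContDiff ℝ ∞ u → HasCompactSupport u → u ≠ 0 →
      0 < ∫ x, (1 + ‖x‖ ^ 2) ^ (α - 1) * u x ^ 2 := fun u hu hc h0 =>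
    De_pos α u hu.continuous hc h0
  refine ⟨hpos, ?_, ?_⟩
  · rintro q ⟨u, hu, hc, h0, rfl⟩
    rw [le_div_iff₀ (hpos u hu hc h0)]
    have hu1 : ContDiff ℝ 1 u := hu.of_le (by exact_mod_cast le_top)
    split_ifs with h
    · exact lowerB α (by linarith) (by linarith) u hu1 hc
    · exact lowerA α u hu1 hc
  · intro b hb
    refine le_of_forall_pos_le_add fun ε hε => ?_
    have key : ∀ (s R C : ℝ), 0 < R → Nu α (tf s R : EuclideanSpace ℝ (Fin n) → ℝ) ≤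
        (C + ε) * De α (tf s R : EuclideanSpace ℝ (Fin n) → ℝ) → b ≤ C + ε := by
      intro s R C hR h
      have h1 : ContDiff ℝ ∞ (tf s R : EuclideanSpace ℝ (Fin n) → ℝ) := contDiff_tf s R
      have h2 := supp_tf (n := n) s hR
      have h3 := tf_ne_zero (n := n) s hR
      refine (hb ⟨_, h1, h2, h3, rfl⟩).trans ?_
      rw [div_le_iff₀ (hpos _ h1 h2 h3)]
      exact h
    split_ifs with h
    · obtain ⟨R, hR, h1⟩ := sharpB (n := n) (by omega) α (by linarith) (by linarith) ε hε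
      exact key _ R _ hR h1
    · obtain ⟨R, hR, h1⟩ := sharpA (n := n) α (not_le.mp h) ε hε
      exact key _ R _ hR h1

end Pool.Agent.Results.MP_5b99fd_an.BestConstant
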